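import Mathlib

/-!
Positive-primitive formulas, Mittag-Leffler modules, direct limits of a class of modules.
-/

set_option autoImplicit false

namespace Pool.Agent.V1128.ML

universe u v w

/-- A positive-primitive formula over `R` in `n` free variables `x`: there are elements `y`
(indexed by the finite type `κ`) solving the finitely many linear equations (indexed by the
finite type `μ`) `∑ A r i • x i + ∑ B r j • y j = 0`. -/
structure PP (R : Type u) (n : ℕ) where
  κ : Type
  μ : Type
  fκ : Fintype κ
  fμ : Fintype μ
  A : μ → Fin n → R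
  B : μ → κ → R

attribute [instance] PP.fκ PP.fμ

/-- The tuple `x` of elements of the left module `M` satisfies the formula. -/
def PP.Holds {R : Type u} [Ring R] {n : ℕ} (φ : PP R n) {M : Type v} [AddCommGroup M] [Module R M]
    (x : Fin n → M) : Prop :=
  ∃ y : φ.κ → M, ∀ r : φ.μ, ∑ i, φ.A r i • x i + ∑ j, φ.B r j • y j = 0

/-- A left module is Mittag-Leffler if the positive-primitive type of every finite tuple is
finitely generated: it contains a positive-primitive formula that implies, in every module,
all other formulas of the type. -/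
def MittagLeffler (R : Type u) [Ring R] (M : Type u) [AddCommGroup M] [Module R M] : Prop :=
  ∀ (n : ℕ) (a : Fin n → M), ∃ φ : PP R n, φ.Holds a ∧ ∀ ψ : PP R n, ψ.Holds a →
    ∀ (N : Type u) [AddCommGroup N] [Module R N] (x : Fin n → N), φ.Holds x → ψ.Holds x

/-- The class `lim 𝒜` of all modules isomorphic to a direct limit, over a directed index set, of
modules in `𝒜`. -/
def InLim (R : Type u) [Ring R] (𝒜 : Set (ModuleCat.{u} R)) (M : Type u) [AddCommGroup M]
    [Module R M] : Prop :=
  ∃ (ι : Type u) (_ : Preorder ι) (_ : IsDirectedOrder ι) (_ : Nonempty ι) (_ : DecidableEq ι)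
    (G : ι → ModuleCat.{u} R) (f : ∀ i j, i ≤ j → G i →ₗ[R] G j)
    (_ : DirectedSystem (fun i => G i) (fun i j h => f i j h)),
    (∀ i, G i ∈ 𝒜) ∧ Nonempty (M ≃ₗ[R] Module.DirectLimit (fun i => G i) f)

end Pool.Agent.V1128.ML
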