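import Mathlib
import Pool.Agent.V1128.ML.Defs

set_option autoImplicit false

namespace Pool.Agent.V1128.ML

universe u v w

variable {R : Type u} [Ring R] {n : ℕ}

section Basic

variable {M : Type v} [AddCommGroup M] [Module R M] {N : Type w} [AddCommGroup N] [Module R N]

lemma PP.Holds.add {φ : PP R n} {x y : Fin n → M} (hx : φ.Holds x) (hy : φ.Holds y) :
    φ.Holds (x + y) := by
  obtain ⟨z, hz⟩ := hx
  obtain ⟨w, hw⟩ := hy
  refine ⟨z + w, fun r => ?_⟩
  have h1 := hz r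
  have h2 := hw r
  simp only [Pi.add_apply, smul_add, Finset.sum_add_distrib]
  rw [add_add_add_comm, h1, h2, add_zero]

lemma PP.Holds.neg {φ : PP R n} {x : Fin n → M} (hx : φ.Holds x) : φ.Holds (-x) := by
  obtain ⟨z, hz⟩ := hx
  refine ⟨-z, fun r => ?_⟩
  simp only [Pi.neg_apply, smul_neg, Finset.sum_neg_distrib]
  rw [← neg_add, hz r, neg_zero]

lemma PP.Holds.sub {φ : PP R n} {x y : Fin n → M} (hx : φ.Holds x) (hy : φ.Holds y) :
    φ.Holds (x - y) := by
  rw [sub_eq_add_neg]; exact hx.add hy.neg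

lemma PP.Holds.map {φ : PP R n} {x : Fin n → M} (hx : φ.Holds x) (f : M →ₗ[R] N) :
    φ.Holds (fun i => f (x i)) := by
  obtain ⟨z, hz⟩ := hx
  refine ⟨fun j => f (z j), fun r => ?_⟩
  have := congrArg f (hz r)
  simpa only [map_add, map_sum, map_smul, map_zero] using this

/-- conjunction -/
def PP.and (φ ψ : PP R n) : PP R n where
  κ := φ.κ ⊕ ψ.κ
  μ := φ.μ ⊕ ψ.μ
  fκ := inferInstance
  fμ := inferInstance
  A := Sum.elim φ.A ψ.A
  B := Sum.elim (fun r => Sum.elim (φ.B r) (fun _ => 0)) (fun r => Sum.elim (fun _ => 0) (ψ.B r))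

lemma PP.and_holds {φ ψ : PP R n} {x : Fin n → M} :
    (φ.and ψ).Holds x ↔ φ.Holds x ∧ ψ.Holds x := by
  have key : (φ.and ψ).Holds x ↔ ∃ y : φ.κ ⊕ ψ.κ → M, ∀ r : φ.μ ⊕ ψ.μ,
      ∑ i, (Sum.elim φ.A ψ.A r i) • x i +
      ∑ j, ((Sum.elim (fun r => Sum.elim (φ.B r) (fun _ => (0 : R)))
        (fun r => Sum.elim (fun _ => (0 : R)) (ψ.B r)) : φ.μ ⊕ ψ.μ → φ.κ ⊕ ψ.κ → R) r j) • y j = 0 :=
    Iff.rfl
  rw [key]
  constructor
  · rintro ⟨y, hy⟩
    constructor
    · refine ⟨fun j => y (Sum.inl j), fun r => ?_⟩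
      have := hy (Sum.inl r)
      rw [Fintype.sum_sum_type] at this
      simpa using this
    · refine ⟨fun j => y (Sum.inr j), fun r => ?_⟩
      have := hy (Sum.inr r)
      rw [Fintype.sum_sum_type] at this
      simpa using this
  · rintro ⟨⟨y, hy⟩, ⟨z, hz⟩⟩
    refine ⟨Sum.elim y z, ?_⟩
    rintro (r | r)
    · have := hy r
      rw [Fintype.sum_sum_type]
      simpa using this
    · have := hz r
      rw [Fintype.sum_sum_type]
      simpa using this

/-- substitution of linear combinations -/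
def PP.subst {m : ℕ} (φ : PP R m) (L : Fin m → Fin n → R) : PP R n where
  κ := φ.κ
  μ := φ.μ
  fκ := inferInstance
  fμ := inferInstance
  A := fun r i => ∑ j, φ.A r j * L j i
  B := φ.B

lemma PP.subst_holds {m : ℕ} {φ : PP R m} {L : Fin m → Fin n → R} {x : Fin n → M} :
    (φ.subst L).Holds x ↔ φ.Holds (fun j => ∑ i, L j i • x i) := by
  have h : ∀ r, ∑ i, (∑ j, φ.A r j * L j i) • x i = ∑ j, φ.A r j • ∑ i, L j i • x i := by
    intro r
    simp only [Finset.sum_smul, Finset.smul_sum, smul_smul]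
    rw [Finset.sum_comm]
  have key : (φ.subst L).Holds x ↔ ∃ y : φ.κ → M, ∀ r : φ.μ,
      ∑ i, (∑ j, φ.A r j * L j i) • x i + ∑ j, φ.B r j • y j = 0 := Iff.rfl
  have key2 : φ.Holds (fun j => ∑ i, L j i • x i) ↔ ∃ y : φ.κ → M, ∀ r : φ.μ,
      ∑ j, φ.A r j • ∑ i, L j i • x i + ∑ j, φ.B r j • y j = 0 := Iff.rfl
  rw [key, key2]
  simp only [h]

/-- quantification over the last variable -/
def PP.ex (φ : PP R (n + 1)) : PP R n where
  κ := Unit ⊕ φ.κ
  μ := φ.μ
  fκ := inferInstance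
  fμ := inferInstance
  A := fun r i => φ.A r i.castSucc
  B := fun r => Sum.elim (fun _ => φ.A r (Fin.last n)) (φ.B r)

lemma PP.ex_holds {φ : PP R (n + 1)} {x : Fin n → M} :
    φ.ex.Holds x ↔ ∃ z, φ.Holds (Fin.snoc x z : Fin (n + 1) → M) := by
  have key : φ.ex.Holds x ↔ ∃ y : Unit ⊕ φ.κ → M, ∀ r : φ.μ,
      ∑ i : Fin n, (φ.A r i.castSucc) • x i +
      ∑ j, ((fun r => Sum.elim (fun _ => φ.A r (Fin.last n)) (φ.B r) : φ.μ → Unit ⊕ φ.κ → R) r j) •
        y j = 0 :=
    Iff.rfl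
  rw [key]
  constructor
  · rintro ⟨y, hy⟩
    refine ⟨y (Sum.inl ()), fun j => y (Sum.inr j), fun r => ?_⟩
    have := hy r
    rw [Fintype.sum_sum_type] at this
    rw [Fin.sum_univ_castSucc]
    simp only [Fin.snoc_castSucc, Fin.snoc_last]
    simpa [add_assoc] using this
  · rintro ⟨z, y, hy⟩
    refine ⟨Sum.elim (fun _ => z) y, fun r => ?_⟩
    have := hy r
    rw [Fin.sum_univ_castSucc] at this
    simp only [Fin.snoc_castSucc, Fin.snoc_last] at this
    rw [Fintype.sum_sum_type]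
    simpa [add_assoc] using this

/-- the linear relation `∑ c i • x i = 0` -/
def PP.rel (c : Fin n → R) : PP R n where
  κ := Empty
  μ := Unit
  fκ := inferInstance
  fμ := inferInstance
  A := fun _ => c
  B := fun _ => Empty.elim

lemma PP.rel_holds {c : Fin n → R} {x : Fin n → M} :
    (PP.rel c).Holds x ↔ ∑ i, c i • x i = 0 := by
  have key : (PP.rel c).Holds x ↔ ∃ y : Empty → M, ∀ _ : Unit,
      ∑ i : Fin n, c i • x i + ∑ j : Empty, (Empty.elim j : R) • y j = 0 :=
    Iff.rfl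
  rw [key]
  constructor
  · rintro ⟨y, hy⟩
    have := hy ()
    simpa using this
  · intro h
    refine ⟨Empty.elim, fun _ => ?_⟩
    simpa using h

/-- `φ` implies `ψ` in all modules (of the universe `u`). -/
def PP.Imp (φ ψ : PP R n) : Prop :=
  ∀ (N : Type u) [AddCommGroup N] [Module R N] (x : Fin n → N), φ.Holds x → ψ.Holds x

end Basic

/-- A purity condition: every formula satisfied in the target by a tuple can be lifted. -/
def PureEpi {M : Type v} [AddCommGroup M] [Module R M] {N : Type w} [AddCommGroup N] [Module R N]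
    (π : M →ₗ[R] N) : Prop :=
  ∀ (n : ℕ) (ψ : PP R n) (x : Fin n → N), ψ.Holds x → ∃ y : Fin n → M, (∀ i, π (y i) = x i) ∧
    ψ.Holds y

/-- pure submodules -/
def Pure {M : Type v} [AddCommGroup M] [Module R M] (P : Submodule R M) : Prop :=
  ∀ (n : ℕ) (ψ : PP R n) (x : Fin n → P), ψ.Holds (fun i => (x i : M)) → ψ.Holds x

section Purity

variable {M : Type v} [AddCommGroup M] [Module R M]

/-- The quotient by a pure submodule is a pure epimorphism. -/
lemma Pure.mkQ {P : Submodule R M} (hP : Pure P) : PureEpi P.mkQ := by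
  intro n ψ x hx
  obtain ⟨y, hy⟩ := hx
  choose x' hx' using fun i => P.mkQ_surjective (x i)
  choose y' hy' using fun j => P.mkQ_surjective (y j)
  -- the error terms lie in `P`
  have herr : ∀ r, ∑ i, ψ.A r i • x' i + ∑ j, ψ.B r j • y' j ∈ P := by
    intro r
    rw [← Submodule.ker_mkQ P, LinearMap.mem_ker]
    simp only [map_add, map_sum, map_smul, hx', hy']
    exact hy r
  -- the formula in the variables indexed by `ψ.μ`
  let e : ψ.μ ≃ Fin (Fintype.card ψ.μ) := Fintype.equivFin _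
  let θ : PP R (Fintype.card ψ.μ) :=
    { κ := Fin n ⊕ ψ.κ
      μ := ψ.μ
      fκ := inferInstance
      fμ := inferInstance
      A := fun r s => if s = e r then (-1 : R) else 0
      B := fun r => Sum.elim (ψ.A r) (ψ.B r) }
  have hθ : ∀ {Q : Type v} [AddCommGroup Q] [Module R Q] (z : Fin (Fintype.card ψ.μ) → Q),
      θ.Holds z ↔ ∃ (a : Fin n → Q) (b : ψ.κ → Q), ∀ r, ∑ i, ψ.A r i • a i + ∑ j, ψ.B r j • b j =
        z (e r) := by
    intro Q _ _ z
    have key : θ.Holds z ↔ ∃ t : Fin n ⊕ ψ.κ → Q, ∀ r : ψ.μ,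
        ∑ s : Fin (Fintype.card ψ.μ), (if s = e r then (-1 : R) else 0) • z s +
        ∑ j : Fin n ⊕ ψ.κ, (Sum.elim (ψ.A r) (ψ.B r) j) • t j = 0 := Iff.rfl
    rw [key]
    constructor
    · rintro ⟨t, ht⟩
      refine ⟨fun i => t (Sum.inl i), fun j => t (Sum.inr j), fun r => ?_⟩
      have h := ht r
      rw [Fintype.sum_sum_type] at h
      simp only [ite_smul, neg_smul, one_smul, zero_smul, Finset.sum_ite_eq', Finset.mem_univ,
        if_true, Sum.elim_inl, Sum.elim_inr] at h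
      exact (neg_add_eq_zero.mp h).symm
    · rintro ⟨a, b, h⟩
      refine ⟨Sum.elim a b, fun r => ?_⟩
      rw [Fintype.sum_sum_type]
      simp only [ite_smul, neg_smul, one_smul, zero_smul, Finset.sum_ite_eq', Finset.mem_univ,
        if_true, Sum.elim_inl, Sum.elim_inr]
      exact neg_add_eq_zero.mpr (h r).symm
  have h1 : θ.Holds (fun s => ((⟨_, herr (e.symm s)⟩ : P) : M)) := by
    rw [hθ]
    refine ⟨x', y', fun r => ?_⟩
    rw [Equiv.symm_apply_apply]
  obtain ⟨a, b, hab⟩ := (hθ _).mp (hP _ θ _ h1)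
  refine ⟨fun i => x' i - (a i : M), fun i => ?_, ?_⟩
  · rw [map_sub, hx', sub_eq_self, ← LinearMap.mem_ker, Submodule.ker_mkQ]
    exact (a i).2
  · refine ⟨fun j => y' j - (b j : M), fun r => ?_⟩
    have h2 := congrArg (Subtype.val : P → M) (hab r)
    rw [Equiv.symm_apply_apply] at h2
    simp only [smul_sub, Finset.sum_sub_distrib]
    have h3 : ((∑ i, ψ.A r i • a i + ∑ j, ψ.B r j • b j : P) : M) =
        ∑ i, ψ.A r i • (a i : M) + ∑ j, ψ.B r j • (b j : M) := by
      simp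
    rw [h3] at h2
    rw [sub_add_sub_comm, h2, sub_self]

end Purity

end Pool.Agent.V1128.ML
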