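import Mathlib
import Pool.Agent.V1128.ML.Basic

set_option autoImplicit false

namespace Pool.Agent.V1128.ML

universe u v w

variable {R : Type u} [Ring R] {n : ℕ}

/-- free realization: the type of a tuple in a finitely presented module is generated by one
formula -/
lemma exists_free (A : Type u) [AddCommGroup A] [Module R A] [Module.FinitePresentation R A]
    (a : Fin n → A) : ∃ φ : PP R n, φ.Holds a ∧ ∀ (N : Type u) [AddCommGroup N] [Module R N]
      (x : Fin n → N), φ.Holds x → ∃ f : A →ₗ[R] N, ∀ i, f (a i) = x i := by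
  obtain ⟨m, K, e, hK⟩ := Module.FinitePresentation.exists_fin R A
  obtain ⟨p, c, hc⟩ := Submodule.fg_iff_exists_fin_generating_family.mp hK
  choose L hL using fun i => K.mkQ_surjective (e (a i))
  let φ : PP R n :=
    { κ := Fin m
      μ := Fin p ⊕ Fin n
      fκ := inferInstance
      fμ := inferInstance
      A := Sum.elim (fun _ _ => 0) (fun i j => if j = i then (-1 : R) else 0)
      B := Sum.elim c L }
  have hφ : ∀ {Q : Type u} [AddCommGroup Q] [Module R Q] (x : Fin n → Q),
      φ.Holds x ↔ ∃ y : Fin m → Q, (∀ r, ∑ k, c r k • y k = 0) ∧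
        ∀ i, ∑ k, L i k • y k = x i := by
    intro Q _ _ x
    have key : φ.Holds x ↔ ∃ y : Fin m → Q, ∀ r : Fin p ⊕ Fin n,
      ∑ i, (Sum.elim (fun _ _ => 0) (fun i j => if j = i then (-1 : R) else 0) r i : R) • x i +
      ∑ k, (Sum.elim c L r k) • y k = 0 := Iff.rfl
    rw [key]
    constructor
    · rintro ⟨y, hy⟩
      refine ⟨y, fun r => ?_, fun i => ?_⟩
      · simpa using hy (Sum.inl r)
      · have := hy (Sum.inr i)
        simp only [Sum.elim_inr, ite_smul, neg_smul, one_smul, zero_smul, Finset.sum_ite_eq',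
           Finset.mem_univ, if_true] at this
        exact (neg_add_eq_zero.mp this).symm
    · rintro ⟨y, h1, h2⟩
      refine ⟨y, ?_⟩
      rintro (r | i)
      · simpa using h1 r
      · simp only [Sum.elim_inr, ite_smul, neg_smul, one_smul, zero_smul, Finset.sum_ite_eq',
           Finset.mem_univ, if_true]
        exact neg_add_eq_zero.mpr (h2 i).symm
  refine ⟨φ, (hφ _).mpr ⟨fun k => e.symm (K.mkQ (Pi.single k 1)), fun r => ?_, fun i => ?_⟩, ?_⟩
  · have h1 : c r ∈ K := hc ▸ Submodule.subset_span (Set.mem_range_self r)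
    have h2 : ∑ k, c r k • (Pi.single k 1 : Fin m → R) = c r := by
      ext k
      simp [Finset.sum_apply, Pi.single_apply]
    have h3 : e.symm (K.mkQ (∑ k, c r k • (Pi.single k 1 : Fin m → R))) = 0 := by
      rw [h2, Submodule.mkQ_apply, (Submodule.Quotient.mk_eq_zero K).mpr h1, map_zero]
    rw [← h3]
    simp only [map_sum, map_smul]
  · have h2 : ∑ k, L i k • (Pi.single k 1 : Fin m → R) = L i := by
      ext k
      simp [Finset.sum_apply, Pi.single_apply]
    have h3 : e.symm (K.mkQ (∑ k, L i k • (Pi.single k 1 : Fin m → R))) = a i := by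
      rw [h2, hL, e.symm_apply_apply]
    rw [← h3]
    simp only [map_sum, map_smul]
  · intro N _ _ x hx
    obtain ⟨y, hy1, hy2⟩ := (hφ x).mp hx
    have hle : K ≤ LinearMap.ker (Fintype.linearCombination R y) := by
      rw [← hc, Submodule.span_le]
      rintro _ ⟨r, rfl⟩
      rw [SetLike.mem_coe, LinearMap.mem_ker, Fintype.linearCombination_apply]
      exact hy1 r
    refine ⟨(K.liftQ _ hle).comp e.toLinearMap, fun i => ?_⟩
    rw [LinearMap.comp_apply, LinearEquiv.coe_coe, ← hL i, Submodule.mkQ_apply,
      Submodule.liftQ_apply, Fintype.linearCombination_apply]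
    exact hy2 i

end Pool.Agent.V1128.ML
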