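import Mathlib
import Pool.Agent.V1128.ML.Free

set_option autoImplicit false

namespace Pool.Agent.V1128.ML

universe u v w

section Lim

variable {R : Type u} [Ring R] {n : ℕ}
variable {ι : Type u} [Preorder ι] [IsDirectedOrder ι] [Nonempty ι] [DecidableEq ι]
  {G : ι → Type u} [∀ i, AddCommGroup (G i)] [∀ i, Module R (G i)]
  {f : ∀ i j, i ≤ j → G i →ₗ[R] G j} [DirectedSystem G (fun i j h => f i j h)]

omit [DirectedSystem G fun i j h => ⇑(f i j h)] in
/-- lift a finite tuple to a stage above a given one -/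
lemma lift_tuple {κ : Type} [Finite κ] (i₀ : ι) (x : κ → Module.DirectLimit G f) :
    ∃ (j : ι) (_ : i₀ ≤ j) (y : κ → G j), ∀ k, Module.DirectLimit.of R ι G f j (y k) = x k := by
  choose i y hy using fun k => Module.DirectLimit.exists_of (x k)
  obtain ⟨j, hj⟩ := Finite.exists_le (fun o : Option κ => o.elim i₀ i)
  have hj0 : i₀ ≤ j := hj none
  have hj1 : ∀ k, i k ≤ j := fun k => hj (some k)
  refine ⟨j, hj0, fun k => f (i k) j (hj1 k) (y k), fun k => ?_⟩
  rw [Module.DirectLimit.of_f, hy]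

/-- a formula true in the limit is true at some stage -/
lemma holds_stage (ψ : PP R n) (i₀ : ι) (x : Fin n → G i₀)
    (h : ψ.Holds (fun i => Module.DirectLimit.of R ι G f i₀ (x i))) :
    ∃ (j : ι) (hj : i₀ ≤ j), ψ.Holds (fun i => f i₀ j hj (x i)) := by
  obtain ⟨y, hy⟩ := h
  obtain ⟨i₁, h₁, z, hz⟩ := lift_tuple i₀ y
  have herr : ∀ r : ψ.μ, ∃ (j : ι) (hj : i₁ ≤ j),
      f i₁ j hj (∑ i, ψ.A r i • f i₀ i₁ h₁ (x i) + ∑ k, ψ.B r k • z k) = 0 := by
    intro r
    apply Module.DirectLimit.of.zero_exact (f := f)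
    simp only [map_add, map_sum, map_smul, Module.DirectLimit.of_f, hz]
    exact hy r
  choose j hj hj2 using herr
  obtain ⟨J, hJ⟩ := Finite.exists_le (fun o : Option ψ.μ => o.elim i₁ j)
  have hJ1 : i₁ ≤ J := hJ none
  have hJ2 : ∀ r, j r ≤ J := fun r => hJ (some r)
  refine ⟨J, h₁.trans hJ1, fun k => f i₁ J hJ1 (z k), fun r => ?_⟩
  have h2 := congrArg (f (j r) J (hJ2 r)) (hj2 r)
  rw [map_zero, DirectedSystem.map_map (f := fun i j h => f i j h)] at h2
  have h3 : ∀ i, f i₀ J (h₁.trans hJ1) (x i) = f i₁ J hJ1 (f i₀ i₁ h₁ (x i)) := by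
    intro i
    rw [DirectedSystem.map_map (f := fun i j h => f i j h)]
  simp only [h3]
  rw [← h2]
  simp only [map_add, map_sum, map_smul]

end Lim

/-- every formula satisfied in `M` by a tuple is satisfied in a module of the class over `M` -/
def LPP (R : Type u) [Ring R] (𝒜 : Set (ModuleCat.{u} R)) (M : Type u) [AddCommGroup M]
    [Module R M] : Prop :=
  ∀ (n : ℕ) (ψ : PP R n) (x : Fin n → M), ψ.Holds x → ∃ A ∈ 𝒜, ∃ (f : A →ₗ[R] M) (a : Fin n → A),
    (∀ i, f (a i) = x i) ∧ ψ.Holds a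

lemma InLim.lpp {R : Type u} [Ring R] {𝒜 : Set (ModuleCat.{u} R)} {M : Type u} [AddCommGroup M]
    [Module R M] (h : InLim R 𝒜 M) : LPP R 𝒜 M := by
  obtain ⟨ι, _, _, _, _, G, f, _, hG, ⟨e⟩⟩ := h
  intro n ψ x hx
  obtain ⟨i₀, -, y, hy⟩ := lift_tuple (R := R) (G := fun i => G i) (f := f) (Classical.arbitrary ι)
    (fun i => e (x i))
  have h1 : ψ.Holds (fun i => Module.DirectLimit.of R ι (fun i => G i) f i₀ (y i)) := by
    simp only [hy]
    exact hx.map e.toLinearMap
  obtain ⟨j, hj, h2⟩ := holds_stage (G := fun i => G i) ψ i₀ y h1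
  refine ⟨G j, hG j, e.symm.toLinearMap.comp (Module.DirectLimit.of R ι (fun i => G i) f j), _,
    fun i => ?_, h2⟩
  rw [LinearMap.comp_apply, Module.DirectLimit.of_f, hy]
  simp

lemma LPP.quot {R : Type u} [Ring R] {𝒜 : Set (ModuleCat.{u} R)} {M : Type u} [AddCommGroup M]
    [Module R M] (h : LPP R 𝒜 M) {N : Type u} [AddCommGroup N] [Module R N] (π : M →ₗ[R] N)
    (hπ : PureEpi π) : LPP R 𝒜 N := by
  intro n ψ x hx
  obtain ⟨y, hy, hy2⟩ := hπ n ψ x hx
  obtain ⟨A, hA, f, a, ha, ha2⟩ := h n ψ y hy2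
  refine ⟨A, hA, π.comp f, a, fun i => ?_, ha2⟩
  rw [LinearMap.comp_apply, ha, hy]

/-! ### sequences -/

section Seq

variable {R : Type u} [Ring R] {G : ℕ → ModuleCat.{u} R} (g : ∀ k, G k →ₗ[R] G (k + 1))

/-- the composite maps of a sequence -/
noncomputable def comps (k : ℕ) : ∀ l, k ≤ l → (G k →ₗ[R] G l) := fun _ h =>
  Nat.leRec (motive := fun l _ => G k →ₗ[R] G l) LinearMap.id (fun l _ φ => (g l).comp φ) h

lemma comps_self (k : ℕ) : comps g k k le_rfl = LinearMap.id := by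
  rw [comps, Nat.leRec_self]

lemma comps_succ (k l : ℕ) (h : k ≤ l) : comps g k (l + 1) (h.trans (Nat.le_succ l)) =
    (g l).comp (comps g k l h) := by
  rw [comps, Nat.leRec_succ]
  rfl

lemma comps_comp (k l m : ℕ) (h : k ≤ l) (h' : l ≤ m) (x : G k) :
    comps g l m h' (comps g k l h x) = comps g k m (h.trans h') x := by
  induction m, h' using Nat.le_induction with
  | base => rw [comps_self]; rfl
  | succ m hm ih =>
    rw [comps_succ g l m hm, comps_succ g k m (h.trans hm), LinearMap.comp_apply,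
      LinearMap.comp_apply, ih]

end Seq

end Pool.Agent.V1128.ML
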