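import Mathlib
import Pool.Agent.V1128.ML.Lim

set_option autoImplicit false

namespace Pool.Agent.V1128.ML

universe u v w

variable {R : Type u} [Ring R] {𝒜 : Set (ModuleCat.{u} R)} {M : Type u} [AddCommGroup M]
  [Module R M]

/-- a module of the class over `M` with a lift of a tuple -/
structure Stage (𝒜 : Set (ModuleCat.{u} R)) {n : ℕ} (a₀ : Fin n → M) where
  A : ModuleCat.{u} R
  mem : A ∈ 𝒜
  f : A →ₗ[R] M
  a : Fin n → A
  ha : ∀ i, f (a i) = a₀ i

/-- one step of the construction -/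
lemma Stage.exists_next (hfp : ∀ A ∈ 𝒜, Module.FinitePresentation R A) (hM : LPP R 𝒜 M) {n : ℕ}
    (a₀ : Fin n → M) (hbad : ∀ φ : PP R n, φ.Holds a₀ → ∃ ψ : PP R n, ψ.Holds a₀ ∧ ¬ φ.Imp ψ)
    (S : Stage 𝒜 a₀) : ∃ (T : Stage 𝒜 a₀) (g : S.A →ₗ[R] T.A) (ψ : PP R n),
      (∀ i, g (S.a i) = T.a i) ∧ ¬ ψ.Holds S.a ∧ ψ.Holds T.a := by
  have := hfp S.A S.mem
  obtain ⟨φ, hφ, hφ2⟩ := exists_free (R := R) S.A S.a
  have h0 : S.f ∘ S.a = a₀ := funext S.ha
  have h1 : φ.Holds a₀ := by rw [← h0]; exact hφ.map S.f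
  obtain ⟨ψ, hψ, hψ2⟩ := hbad φ h1
  have h2 : ¬ ψ.Holds S.a := by
    intro h
    apply hψ2
    intro N _ _ x hx
    obtain ⟨f, hf⟩ := hφ2 N x hx
    have := h.map f
    simpa only [hf] using this
  -- generators of `S.A`
  obtain ⟨m, c, hc⟩ := Submodule.fg_iff_exists_fin_generating_family.mp
    (inferInstance : Module.Finite R S.A).fg_top
  obtain ⟨χ, hχ, hχ2⟩ := exists_free (R := R) S.A c
  have hL : ∀ i, ∃ L : Fin m → R, ∑ k, L k • c k = S.a i := by
    intro i
    have : S.a i ∈ Submodule.span R (Set.range c) := hc ▸ Submodule.mem_top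
    exact (Submodule.mem_span_range_iff_exists_fun R).mp this
  choose L hL using hL
  have h3 : (χ.and (ψ.subst L)).Holds (fun k => S.f (c k)) := by
    rw [PP.and_holds, PP.subst_holds]
    refine ⟨hχ.map S.f, ?_⟩
    have h4 : (fun j => ∑ i, L j i • S.f (c i)) = a₀ := by
      funext j
      rw [← S.ha j, ← hL j]
      simp only [map_sum, map_smul]
    rw [h4]
    exact hψ
  obtain ⟨B, hB, f, b, hb, hb2⟩ := hM m _ _ h3
  rw [PP.and_holds, PP.subst_holds] at hb2
  obtain ⟨g, hg⟩ := hχ2 B b hb2.1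
  have h5 : f.comp g = S.f := by
    apply LinearMap.ext_on_range hc
    intro k
    rw [LinearMap.comp_apply, hg, hb]
  refine ⟨⟨B, hB, f, fun i => g (S.a i), fun i => ?_⟩, g, ψ, fun i => rfl, h2, ?_⟩
  · rw [← LinearMap.comp_apply, h5, S.ha]
  · have h6 : (fun i => g (S.a i)) = (fun j => ∑ i, L j i • b i) := by
      funext j
      rw [← hL j]
      simp only [map_sum, map_smul, hg]
    show ψ.Holds (fun i => g (S.a i))
    rw [h6]
    exact hb2.2

/-- If all modules in `lim 𝒜` are Mittag-Leffler, so is every module all of whose tuples factor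
through the class. -/
theorem LPP.mittagLeffler (hfp : ∀ A ∈ 𝒜, Module.FinitePresentation R A)
    (hML : ∀ (M : Type u) [AddCommGroup M] [Module R M], InLim R 𝒜 M → MittagLeffler R M)
    (hM : LPP R 𝒜 M) : MittagLeffler R M := by
  by_contra hcon
  unfold MittagLeffler at hcon
  push Not at hcon
  obtain ⟨n, a₀, hbad'⟩ := hcon
  have hbad : ∀ φ : PP R n, φ.Holds a₀ → ∃ ψ : PP R n, ψ.Holds a₀ ∧ ¬ φ.Imp ψ := by
    intro φ hφ
    obtain ⟨ψ, hψ, N, _, _, x, hx, hx2⟩ := hbad' φ hφ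
    exact ⟨ψ, hψ, fun h => hx2 (h N x hx)⟩
  -- the first stage
  obtain ⟨S₀⟩ : Nonempty (Stage 𝒜 a₀) := by
    let triv : PP R n := PP.rel 0
    have ht : triv.Holds a₀ := by rw [PP.rel_holds]; simp
    obtain ⟨A, hA, f, a, ha, -⟩ := hM n triv a₀ ht
    exact ⟨⟨A, hA, f, a, ha⟩⟩
  choose next g ψ hg h1 h2 using Stage.exists_next hfp hM a₀ hbad
  let S : ℕ → Stage 𝒜 a₀ := fun k => Nat.rec S₀ (fun _ T => next T) k
  have hS : ∀ k, S (k + 1) = next (S k) := fun k => rfl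
  let G : ℕ → ModuleCat.{u} R := fun k => (S k).A
  let γ : ∀ k, G k →ₗ[R] G (k + 1) := fun k => g (S k)
  let ι := ULift.{u} ℕ
  let G' : ι → ModuleCat.{u} R := fun k => G k.down
  let F : ∀ i j : ι, i ≤ j → G' i →ₗ[R] G' j := fun i j h => comps γ i.down j.down h
  have hF : DirectedSystem (fun i => G' i) (fun i j h => F i j h) := by
    constructor
    · intro i x
      show comps γ i.down i.down _ x = x
      rw [comps_self]
      rfl
    · intro i j k hij hjk x
      exact comps_comp γ _ _ _ hij hjk x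
  have : IsDirectedOrder ι := ⟨fun a b => ⟨⟨max a.down b.down⟩, le_max_left a.down b.down,
    le_max_right a.down b.down⟩⟩
  have hlim : InLim R 𝒜 (Module.DirectLimit (fun i => G' i) F) :=
    ⟨ι, inferInstance, inferInstance, inferInstance, inferInstance, G', F, hF,
      fun i => (S i.down).mem, ⟨LinearEquiv.refl R _⟩⟩
  have haS : ∀ k l (h : k ≤ l) i, comps γ k l h ((S k).a i) = (S l).a i := by
    intro k l h i
    induction l, h using Nat.le_induction with
    | base => rw [comps_self]; rfl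
    | succ m hm ih =>
      rw [comps_succ γ k m hm, LinearMap.comp_apply, ih]
      exact hg (S m) i
  let O := Module.DirectLimit.of R ι (fun i => G' i) F
  let a' : Fin n → Module.DirectLimit (fun i => G' i) F := fun i => O ⟨0⟩ ((S 0).a i)
  have ha' : ∀ k i, O ⟨k⟩ ((S k).a i) = a' i := by
    intro k i
    have h0 : (⟨0⟩ : ι) ≤ ⟨k⟩ := Nat.zero_le k
    have h3 : F ⟨0⟩ ⟨k⟩ h0 ((S 0).a i) = (S k).a i := haS 0 k (Nat.zero_le k) i
    show O ⟨k⟩ ((S k).a i) = O ⟨0⟩ ((S 0).a i)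
    rw [← h3]
    exact Module.DirectLimit.of_f
  obtain ⟨φ, hφ, hφ2⟩ := hML _ hlim n a'
  obtain ⟨⟨k⟩, hk, hk2⟩ := holds_stage (G := fun i => G' i) (f := F) φ ⟨0⟩ (fun i => (S 0).a i) hφ
  have h4 : (fun i => F ⟨0⟩ ⟨k⟩ hk ((S 0).a i)) = (S k).a := funext (haS 0 k hk)
  rw [h4] at hk2
  have h5 : (ψ (S k)).Holds a' := by
    have := (h2 (S k)).map (O ⟨k + 1⟩)
    have h6 : (fun i => O ⟨k + 1⟩ ((next (S k)).a i)) = a' := funext (ha' (k + 1))
    rwa [h6] at this
  exact h1 (S k) (hφ2 _ h5 _ _ hk2)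

end Pool.Agent.V1128.ML
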