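import Mathlib
import Pool.Agent.V1128.ML.Chain

set_option autoImplicit false

namespace Pool.Agent.V1128.ML

universe u v w

variable {R : Type u} [Ring R] {M : Type u} [AddCommGroup M] [Module R M]

/-- pure submodules of Mittag-Leffler modules are Mittag-Leffler -/
lemma MittagLeffler.pure (hM : MittagLeffler R M) {P : Submodule R M} (hP : Pure P) :
    MittagLeffler R P := by
  intro n a
  obtain ⟨φ, hφ, hφ2⟩ := hM n (fun i => (a i : M))
  refine ⟨φ, hP n φ a hφ, fun ψ hψ => hφ2 ψ (hψ.map P.subtype)⟩

/-- a directed union of pure submodules is pure -/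
lemma pure_sSup {𝒟 : Set (Submodule R M)} (hne : 𝒟.Nonempty) (hdir : DirectedOn (· ≤ ·) 𝒟)
    (h : ∀ P ∈ 𝒟, Pure P) : Pure (sSup 𝒟) := by
  intro n ψ x hx
  have hfg : (Submodule.span R (Set.range (fun i => (x i : M)))).FG :=
    Submodule.fg_span (Set.finite_range _)
  have hle : Submodule.span R (Set.range (fun i => (x i : M))) ≤ sSup 𝒟 := by
    rw [Submodule.span_le]
    rintro _ ⟨i, rfl⟩
    exact (x i).2
  obtain ⟨P, hP, hP2⟩ := (CompleteLattice.isCompactElement_iff_le_of_directed_sSup_le _ _).mp
    ((Submodule.fg_iff_compact _).mp hfg) 𝒟 hne hdir hle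
  have hxP : ∀ i, (x i : M) ∈ P := fun i => hP2 (Submodule.subset_span (Set.mem_range_self i))
  have h1 : ψ.Holds (fun i => (⟨x i, hxP i⟩ : P)) := h P hP n ψ _ hx
  have h2 := h1.map (Submodule.inclusion (le_sSup hP))
  exact h2

/-- every countable set of a Mittag-Leffler module lies in a countably generated pure submodule -/
lemma MittagLeffler.exists_pure (hM : MittagLeffler R M) (S₀ : Set M) (hS₀ : S₀.Countable) :
    ∃ S : Set M, S.Countable ∧ S₀ ⊆ S ∧ Pure (Submodule.span R S) := by
  choose φ hφ hφ2 using hM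
  choose y hy using hφ
  let W : Set M → Set M := fun S => S ∪ ⋃ (n : ℕ) (a : Fin n → S),
    Set.range (y n (fun i => (a i : M)))
  have hWc : ∀ S : Set M, S.Countable → (W S).Countable := by
    intro S hS
    have : Countable S := hS
    exact hS.union (Set.countable_iUnion fun n => Set.countable_iUnion fun a =>
      (Set.finite_range _).countable)
  let T : ℕ → Set M := fun k => W^[k] S₀
  have hT : ∀ k, T (k + 1) = W (T k) := fun k => Function.iterate_succ_apply' W k S₀
  have hTc : ∀ k, (T k).Countable := by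
    intro k
    induction k with
    | zero => exact hS₀
    | succ k ih => rw [hT]; exact hWc _ ih
  have hTm : Monotone T := by
    apply monotone_nat_of_le_succ
    intro k
    rw [hT]
    exact Set.subset_union_left
  refine ⟨⋃ k, T k, Set.countable_iUnion hTc, fun x hx => Set.mem_iUnion.mpr ⟨0, hx⟩, ?_⟩
  intro m ψ x hx
  -- collect finitely many elements of the union
  have hspan : ∀ i, ∃ k, (x i : M) ∈ Submodule.span R (T k) := by
    intro i
    have h1 : (x i : M) ∈ ⨆ k, Submodule.span R (T k) := (Submodule.span_iUnion (R := R) T) ▸ (x i).2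
    exact (Submodule.mem_iSup_of_directed _ (Monotone.directed_le fun a b h =>
      Submodule.span_mono (hTm h))).mp h1
  choose k hk using hspan
  obtain ⟨K, hK⟩ := Finite.exists_le k
  have hK2 : ∀ i, (x i : M) ∈ Submodule.span R (T K) := fun i =>
    Submodule.span_mono (hTm (hK i)) (hk i)
  -- a finite subset of `T K` suffices
  have hfin : ∃ F : Finset M, (F : Set M) ⊆ T K ∧ ∀ i, (x i : M) ∈ Submodule.span R (F : Set M) := by
    choose F hF hF2 using fun i => Submodule.mem_span_finite_of_mem_span (hK2 i)
    classical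
    refine ⟨Finset.univ.biUnion F, ?_, fun i => ?_⟩
    · intro z hz
      rw [Finset.mem_coe, Finset.mem_biUnion] at hz
      obtain ⟨i, -, hi⟩ := hz
      exact hF i hi
    · exact Submodule.span_mono (by
        intro z hz
        rw [Finset.mem_coe, Finset.mem_biUnion]
        exact ⟨i, Finset.mem_univ i, hz⟩) (hF2 i)
  obtain ⟨F, hF, hF2⟩ := hfin
  let e : Fin F.card ≃ F := F.equivFin.symm
  let a : Fin F.card → T K := fun i => ⟨e i, hF (e i).2⟩
  have ha : Set.range (fun i => (a i : M)) = F := by
    ext z
    constructor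
    · rintro ⟨i, rfl⟩
      exact (e i).2
    · intro hz
      exact ⟨e.symm ⟨z, hz⟩, by simp [a]⟩
  have hL : ∀ i, ∃ L : Fin F.card → R, ∑ k, L k • (a k : M) = x i := by
    intro i
    have := hF2 i
    rw [← ha] at this
    exact (Submodule.mem_span_range_iff_exists_fun R).mp this
  choose L hL using hL
  have h1 : (ψ.subst L).Holds (fun k => (a k : M)) := by
    rw [PP.subst_holds]
    simpa only [hL] using hx
  have h2 : (φ F.card (fun k => (a k : M))).Imp (ψ.subst L) := hφ2 _ _ _ h1
  have hmem : ∀ k, (a k : M) ∈ Submodule.span R (⋃ k, T k) := fun k =>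
    Submodule.subset_span (Set.mem_iUnion.mpr ⟨K, (a k).2⟩)
  have hmem2 : ∀ j, y F.card (fun k => (a k : M)) j ∈ Submodule.span R (⋃ k, T k) := by
    intro j
    apply Submodule.subset_span
    rw [Set.mem_iUnion]
    refine ⟨K + 1, ?_⟩
    rw [hT]
    right
    rw [Set.mem_iUnion]
    refine ⟨F.card, ?_⟩
    rw [Set.mem_iUnion]
    exact ⟨a, Set.mem_range_self j⟩
  have h3 : (φ F.card (fun k => (a k : M))).Holds
      (fun k => (⟨a k, hmem k⟩ : Submodule.span R (⋃ k, T k))) := by
    refine ⟨fun j => ⟨_, hmem2 j⟩, fun r => ?_⟩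
    apply Subtype.ext
    have h4 := hy F.card (fun k => (a k : M)) r
    simpa using h4
  have h4 := h2 _ _ h3
  rw [PP.subst_holds] at h4
  have h5 : (fun j => ∑ i, L j i • (⟨a i, hmem i⟩ : Submodule.span R (⋃ k, T k))) = x := by
    funext j
    apply Subtype.ext
    simpa using hL j
  rwa [h5] at h4

/-- recursively defined sequence -/
noncomputable def bseq {E : Type v} (nx : ∀ n : ℕ, (Fin n → E) → E) (n : ℕ) : E :=
  nx n (fun i => bseq nx i)
termination_by n
decreasing_by exact i.2

/-- projectivity of countably generated Mittag-Leffler modules with respect to pure epimorphisms -/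
lemma MittagLeffler.lift {Q : Type u} [AddCommGroup Q] [Module R Q] (hQ : MittagLeffler R Q)
    (q : ℕ → Q) (hq : Submodule.span R (Set.range q) = ⊤) {N : Type u} [AddCommGroup N]
    [Module R N] (π : M →ₗ[R] N) (hπ : PureEpi π) (h : Q →ₗ[R] N) :
    ∃ s : Q →ₗ[R] M, π.comp s = h := by
  choose φ hφ hφ2 using fun n : ℕ => hQ n (fun i => q i)
  -- a tuple is good if it lifts the first `n` elements and satisfies the formula
  have hstep : ∀ (n : ℕ) (c : Fin n → M), ∃ e : M, (∀ i, π (c i) = h (q i)) → (φ n).Holds c →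
      π e = h (q n) ∧ (φ (n + 1)).Holds (Fin.snoc c e : Fin (n + 1) → M) := by
    intro n c
    by_cases hc : (∀ i, π (c i) = h (q i)) ∧ (φ n).Holds c
    swap
    · exact ⟨0, fun h1 h2 => absurd ⟨h1, h2⟩ hc⟩
    obtain ⟨hc1, hc2⟩ := hc
    have hsnoc : (fun i : Fin (n + 1) => q i) = Fin.snoc (fun i : Fin n => q i) (q n) := by
      funext i
      refine Fin.lastCases ?_ (fun i => ?_) i
      · simp
      · simp
    have h1 : (φ (n + 1)).ex.Holds (fun i : Fin n => q i) := by
      rw [PP.ex_holds]
      exact ⟨q n, hsnoc ▸ hφ (n + 1)⟩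
    have h2 := hφ2 n _ h1 M c hc2
    rw [PP.ex_holds] at h2
    obtain ⟨e, he⟩ := h2
    -- correct `e`
    let L : Fin (n + 1) → Fin 1 → R := fun j _ => if j = Fin.last n then 1 else 0
    have hL : ∀ {Z : Type u} [AddCommGroup Z] [Module R Z] (t : Fin 1 → Z),
        (fun j => ∑ i, L j i • t i) = (Fin.snoc (fun _ : Fin n => (0 : Z)) (t 0) : Fin (n + 1) → Z) := by
      intro Z _ _ t
      funext j
      refine Fin.lastCases ?_ (fun i => ?_) j
      · simp [L]
      · simp [L, Fin.castSucc_ne_last]
    have h3 : ((φ (n + 1)).subst L).Holds (fun _ : Fin 1 => h (q n) - π e) := by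
      rw [PP.subst_holds, hL]
      have h4 := ((hφ (n + 1)).map h).sub (he.map π)
      have h5 : (fun i : Fin (n + 1) => h (q i)) - (fun i => π ((Fin.snoc c e : Fin (n + 1) → M) i)) =
          (Fin.snoc (fun _ : Fin n => (0 : N)) (h (q n) - π e) : Fin (n + 1) → N) := by
        funext j
        refine Fin.lastCases ?_ (fun i => ?_) j
        · simp
        · simp [hc1]
      rwa [h5] at h4
    obtain ⟨z, hz, hz2⟩ := hπ 1 _ _ h3
    rw [PP.subst_holds, hL] at hz2
    refine ⟨e + z 0, fun _ _ => ⟨?_, ?_⟩⟩
    · rw [map_add, hz]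
      abel
    · have h6 := he.add hz2
      have h7 : (Fin.snoc c e : Fin (n + 1) → M) + (Fin.snoc (fun _ : Fin n => (0 : M)) (z 0) :
          Fin (n + 1) → M) = Fin.snoc c (e + z 0) := by
        funext j
        refine Fin.lastCases ?_ (fun i => ?_) j
        · simp
        · simp
      rwa [h7] at h6
  choose nx hnx using hstep
  let b : ℕ → M := bseq nx
  have hb : ∀ n, b n = nx n (fun i => b i) := by
    intro n
    show bseq nx n = _
    rw [bseq]
  have hgood : ∀ n : ℕ, (∀ i : Fin n, π (b i) = h (q i)) ∧ (φ n).Holds (fun i : Fin n => b i) := by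
    intro n
    induction n with
    | zero =>
      refine ⟨fun i => i.elim0, ?_⟩
      have h1 := (hφ 0).map (0 : Q →ₗ[R] M)
      have h2 : (fun i : Fin 0 => (0 : Q →ₗ[R] M) (q i)) = (fun i : Fin 0 => b i) := by
        funext i
        exact i.elim0
      rwa [h2] at h1
    | succ n ih =>
      obtain ⟨h1, h2⟩ := hnx n _ ih.1 ih.2
      rw [← hb] at h1 h2
      refine ⟨fun i => ?_, ?_⟩
      · refine Fin.lastCases ?_ (fun i => ?_) i
        · simpa using h1
        · simpa using ih.1 i
      · have h3 : (Fin.snoc (fun i : Fin n => b i) (b n) : Fin (n + 1) → M) =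
            fun i : Fin (n + 1) => b i := by
          funext j
          refine Fin.lastCases ?_ (fun i => ?_) j
          · simp
          · simp
        rwa [h3] at h2
  -- relations between the `q i` hold for the `b i`
  have hrel : LinearMap.ker (Finsupp.linearCombination R q) ≤
      LinearMap.ker (Finsupp.linearCombination R b) := by
    intro c hc
    rw [LinearMap.mem_ker] at hc ⊢
    obtain ⟨n, hn⟩ : ∃ n, ∀ i ∈ c.support, i < n := by
      refine ⟨c.support.sup id + 1, fun i hi => Nat.lt_succ_of_le (Finset.le_sup (f := id) hi)⟩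
    have hsum : ∀ {Z : Type u} [AddCommGroup Z] [Module R Z] (t : ℕ → Z),
        Finsupp.linearCombination R t c = ∑ i : Fin n, c i • t i := by
      intro Z _ _ t
      rw [Finsupp.linearCombination_apply, Finsupp.sum, Finset.sum_fin_eq_sum_range]
      rw [Finset.sum_subset (s₂ := Finset.range n)]
      · apply Finset.sum_congr rfl
        intro i hi
        rw [dif_pos (Finset.mem_range.mp hi)]
      · intro i hi
        exact Finset.mem_range.mpr (hn i hi)
      · intro i _ hi
        rw [Finsupp.notMem_support_iff.mp hi, zero_smul]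
    rw [hsum] at hc ⊢
    have h1 : (PP.rel (fun i : Fin n => c i)).Holds (fun i : Fin n => q i) := PP.rel_holds.mpr hc
    exact PP.rel_holds.mp (hφ2 n _ h1 M _ (hgood n).2)
  have hsurj : Function.Surjective (Finsupp.linearCombination R q) := by
    rw [← LinearMap.range_eq_top, Finsupp.range_linearCombination, hq]
  let s : Q →ₗ[R] M := ((LinearMap.ker (Finsupp.linearCombination R q)).liftQ
    (Finsupp.linearCombination R b) hrel).comp
    ((Finsupp.linearCombination R q).quotKerEquivOfSurjective hsurj).symm.toLinearMap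
  have hs : ∀ i, s (q i) = b i := by
    intro i
    have h1 : (Finsupp.linearCombination R q) (Finsupp.single i 1) = q i := by simp
    have h2 : ((Finsupp.linearCombination R q).quotKerEquivOfSurjective hsurj).symm (q i) =
        (LinearMap.ker (Finsupp.linearCombination R q)).mkQ (Finsupp.single i 1) := by
      rw [LinearEquiv.symm_apply_eq]
      exact h1.symm
    show ((LinearMap.ker (Finsupp.linearCombination R q)).liftQ
      (Finsupp.linearCombination R b) hrel)
      (((Finsupp.linearCombination R q).quotKerEquivOfSurjective hsurj).symm (q i)) = _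
    rw [h2, Submodule.mkQ_apply, Submodule.liftQ_apply]
    simp
  refine ⟨s, LinearMap.ext_on_range hq fun i => ?_⟩
  rw [LinearMap.comp_apply, hs]
  exact (hgood (i + 1)).1 (Fin.last i)

end Pool.Agent.V1128.ML
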