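import Mathlib
import Pool.Agent.V1128.ML.Count

set_option autoImplicit false

namespace Pool.Agent.V1128.ML

universe u v w

variable {R : Type u} [Ring R] {M : Type u} [AddCommGroup M] [Module R M]

/-- adding an element disjoint from the supremum to an independent family of submodules -/
lemma sSupIndep_insert' {F : Set (Submodule R M)} (hF : sSupIndep F) {C : Submodule R M}
    (hC : Disjoint (sSup F) C) : sSupIndep (insert C F) := by
  intro a ha
  by_cases haC : a = C
  · subst haC
    refine hC.symm.mono_right (sSup_le_sSup ?_)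
    rintro b ⟨hb, hb2⟩
    rcases hb with hb | hb
    · exact absurd hb hb2
    · exact hb
  · have haF : a ∈ F := by
      rcases ha with h | h
      · exact absurd h haC
      · exact h
    have h1 : Disjoint a (sSup (F \ {a})) := hF haF
    have h2 : a ⊔ sSup (F \ {a}) ≤ sSup F :=
      sup_le (le_sSup haF) (sSup_le_sSup Set.sdiff_subset)
    have h3 : Disjoint a (sSup (F \ {a}) ⊔ C) :=
      h1.disjoint_sup_right_of_disjoint_sup_left (hC.mono_left h2)
    refine h3.mono_right (sSup_le ?_)
    rintro b ⟨hb, hb2⟩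
    rcases hb with hb | hb
    · rw [hb]; exact le_sup_right
    · exact le_sup_of_le_left (le_sSup ⟨hb, hb2⟩)

/-- independent families of countably generated submodules with pure sum -/
def Good (M : Type u) [AddCommGroup M] [Module R M] (F : Set (Submodule R M)) : Prop :=
  sSupIndep F ∧ (∀ C ∈ F, ∃ s : Set M, s.Countable ∧ Submodule.span R s = C) ∧ Pure (sSup F)

lemma good_empty : Good (R := R) M ∅ := by
  refine ⟨sSupIndep_empty, fun C hC => absurd hC (Set.notMem_empty C), ?_⟩
  rw [sSup_empty]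
  intro n ψ x _
  have h1 : x = 0 := by
    funext i
    exact Subsingleton.elim _ _
  rw [h1]
  refine ⟨0, fun r => ?_⟩
  simp

/-- extension step -/
lemma good_extend (hM : ∀ N : Submodule R M, Pure N → MittagLeffler R (M ⧸ N))
    {F : Set (Submodule R M)} (hF : Good M F) (hne : sSup F ≠ ⊤) :
    ∃ C : Submodule R M, C ∉ F ∧ Good M (insert C F) := by
  obtain ⟨hF1, hF2, hF3⟩ := hF
  set N := sSup F with hN
  have hML := hM N hF3
  obtain ⟨m, hm⟩ : ∃ m, m ∉ N := by
    by_contra hcon
    push Not at hcon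
    exact hne (eq_top_iff.mpr fun x _ => hcon x)
  obtain ⟨S, hS, hmS, hSp⟩ := hML.exists_pure {N.mkQ m} (Set.countable_singleton _)
  have hmS' : N.mkQ m ∈ S := hmS (Set.mem_singleton _)
  set Q := Submodule.span R S with hQ
  have hQML : MittagLeffler R Q := hML.pure hSp
  -- enumeration of generators
  obtain ⟨q, hq⟩ : ∃ q : ℕ → Q, Submodule.span R (Set.range q) = ⊤ := by
    obtain ⟨e, he⟩ := hS.exists_eq_range ⟨_, hmS'⟩
    have hmem : ∀ n, e n ∈ Q := fun n => Submodule.subset_span (he ▸ Set.mem_range_self n)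
    refine ⟨fun n => ⟨e n, hmem n⟩, ?_⟩
    apply Submodule.map_injective_of_injective Q.injective_subtype
    rw [Submodule.map_span, Submodule.map_subtype_top, ← Set.range_comp]
    have h1 : (Q.subtype ∘ fun n => (⟨e n, hmem n⟩ : Q)) = e := rfl
    rw [h1, ← he]
  obtain ⟨s, hs⟩ := hQML.lift q hq N.mkQ hF3.mkQ Q.subtype
  have hs' : ∀ x : Q, N.mkQ (s x) = x := fun x => LinearMap.congr_fun hs x
  let C : Submodule R M := LinearMap.range s
  have hdisj : Disjoint N C := by
    rw [Submodule.disjoint_def]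
    rintro _ hx ⟨x, rfl⟩
    have h1 : N.mkQ (s x) = 0 := by
      rw [Submodule.mkQ_apply, Submodule.Quotient.mk_eq_zero]
      exact hx
    rw [hs'] at h1
    have h2 : x = 0 := Subtype.ext h1
    rw [h2, map_zero]
  have hCm : s ⟨_, Submodule.subset_span hmS'⟩ ∉ N := by
    intro h
    have h1 : N.mkQ (s ⟨_, Submodule.subset_span hmS'⟩) = 0 := by
      rw [Submodule.mkQ_apply, Submodule.Quotient.mk_eq_zero]
      exact h
    rw [hs'] at h1
    exact hm ((Submodule.Quotient.mk_eq_zero N).mp h1)
  refine ⟨C, fun hCF => hCm ((le_sSup hCF : C ≤ N) ⟨_, rfl⟩), sSupIndep_insert' hF1 hdisj, ?_, ?_⟩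
  · rintro D (rfl | hD)
    · refine ⟨Set.range (s ∘ q), Set.countable_range _, ?_⟩
      rw [Set.range_comp, ← Submodule.map_span, hq, Submodule.map_top]
    · exact hF2 D hD
  · rw [sSup_insert, ← hN]
    intro n ψ x hx
    -- images in `Q`
    have hxQ : ∀ i, N.mkQ (x i : M) ∈ Q := by
      intro i
      obtain ⟨c, hc, d, hd, hcd⟩ := Submodule.mem_sup.mp (x i).2
      obtain ⟨t, rfl⟩ := hc
      rw [← hcd, map_add, hs']
      have h1 : N.mkQ d = 0 := by
        rw [Submodule.mkQ_apply, Submodule.Quotient.mk_eq_zero]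
        exact hd
      rw [h1, add_zero]
      exact t.2
    let z : Fin n → Q := fun i => ⟨N.mkQ (x i), hxQ i⟩
    have h1 : ψ.Holds z := hSp n ψ z (hx.map N.mkQ)
    have h2 : ψ.Holds (fun i => s (z i)) := h1.map s
    have h3 : ∀ i, (x i : M) - s (z i) ∈ N := by
      intro i
      rw [← Submodule.Quotient.mk_eq_zero, ← Submodule.mkQ_apply, map_sub, hs']
      exact sub_self _
    have h4 : ψ.Holds (fun i => (⟨_, h3 i⟩ : N)) := hF3 n ψ _ (hx.sub h2)
    have hCle : C ≤ C ⊔ N := le_sup_left
    have h5 : ψ.Holds (fun i => (⟨s (z i), hCle ⟨_, rfl⟩⟩ : (C ⊔ N : Submodule R M))) := by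
      have := h1.map ((Submodule.inclusion hCle).comp s.rangeRestrict)
      exact this
    have h6 := (h4.map (Submodule.inclusion (le_sup_right : N ≤ C ⊔ N))).add h5
    have h7 : ((fun i => (Submodule.inclusion (le_sup_right : N ≤ C ⊔ N)) (⟨_, h3 i⟩ : N)) +
        (fun i => (⟨s (z i), hCle ⟨_, rfl⟩⟩ : (C ⊔ N : Submodule R M)))) = x := by
      funext i
      apply Subtype.ext
      show (x i : M) - s (z i) + s (z i) = x i
      abel
    rwa [h7] at h6

/-- If every quotient of `M` by a pure submodule is Mittag-Leffler, then `M` is a direct sum of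
countably generated submodules. -/
theorem decomposition (hM : ∀ N : Submodule R M, Pure N → MittagLeffler R (M ⧸ N)) :
    ∃ (ι : Type u) (_ : DecidableEq ι) (C : ι → Submodule R M),
      (∀ i, ∃ s : Set M, s.Countable ∧ Submodule.span R s = C i) ∧ DirectSum.IsInternal C := by
  classical
  obtain ⟨F, hF⟩ := zorn_subset {F : Set (Submodule R M) | Good M F} (by
    intro c hc hchain
    rcases c.eq_empty_or_nonempty with rfl | hne
    · exact ⟨∅, good_empty, fun s hs => absurd hs (Set.notMem_empty s)⟩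
    · refine ⟨⋃₀ c, ⟨?_, ?_, ?_⟩, fun s hs => Set.subset_sUnion_of_mem hs⟩
      · exact iSupIndep_sUnion_of_directed hchain.directedOn
          (fun a ha => (hc ha).1)
      · rintro C ⟨t, ht, hCt⟩
        exact (hc ht).2.1 C hCt
      · have h1 : sSup (⋃₀ c) = sSup (sSup '' c) := by
          rw [sSup_sUnion, sSup_image]
        rw [h1]
        apply pure_sSup (hne.image _)
        · rintro _ ⟨a, ha, rfl⟩ _ ⟨b, hb, rfl⟩
          rcases hchain.total ha hb with h | h
          · exact ⟨sSup b, ⟨b, hb, rfl⟩, sSup_le_sSup h, le_rfl⟩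
          · exact ⟨sSup a, ⟨a, ha, rfl⟩, le_rfl, sSup_le_sSup h⟩
        · rintro _ ⟨a, ha, rfl⟩
          exact (hc ha).2.2)
  have htop : sSup F = ⊤ := by
    by_contra hcon
    obtain ⟨C, hC, hC2⟩ := good_extend hM hF.prop hcon
    exact hC (hF.le_of_ge hC2 (Set.subset_insert C F) (Set.mem_insert C F))
  refine ⟨F, inferInstance, fun C => C, fun C => hF.prop.2.1 C C.2, ?_⟩
  apply DirectSum.isInternal_submodule_of_iSupIndep_of_iSup_eq_top
  · exact (sSupIndep_iff F).mp hF.prop.1
  · rw [← htop, sSup_eq_iSup']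

end Pool.Agent.V1128.ML
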